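import Pool.Agent.Q19.JL.Fin2

/-!
# Frey's inequality for all elliptic curves over a number field, all heights: the exact slope `1 / 60`

Frey's inequality says that `h_F(A) ≤ (n / 2 + ε) log N_A + c` for all abelian varieties `A` over
`ℚ` of dimension `n` (stable Faltings height). Let `L` be a number field of degree `n`. We consider
the Weil restrictions `A = Res_{L/ℚ} E` of ALL elliptic curves `E` over `L`. Here
`h_F(A) = n h_F(E)` (stable heights), and `N_A = N(f_E) |D_L| ^ 2` (Milne), where the part of the norm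
`N(f_E)` of the conductor prime to six is `cond E`: the product of the norms of the primes of
multiplicative reduction and of the squares of the norms of the primes of additive reduction.

The invariants `j ∈ L` of all heights are ordered by the product `radical j` of the norms of the
primes (not dividing six) at which `j` reduces to `0`, `1728` or `∞`. We show that

* there are `X ^ (2 / 3 + o(1))` invariants with `radical j ≤ X`;
* for every slope `κ > 1 / 60` and every `c`, ALL elliptic curves over `L` (all twists) whose invariant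
  is outside a set of power-saving proportion satisfy `h_F(A) < κ log (cond E) + c`
  (in particular for Frey's slopes `n / 2 + ε`);
* for every slope `κ < 1 / 60` and every `c`, for ALL but finitely many invariants there is a curve
  with `h_F(A) > κ log (cond E) + c`: the slope `1 / 60` is the right one.

The proof combines the theorem of the library on almost all points of the line `x + y + z = 0` over a
number field (points of all heights, ordered by the radical), the fact that simple zeros of `j` and
of `j - 1728` are primes of additive reduction, and Silverman's formula.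
-/

set_option autoImplicit false

namespace Pool.Agent.Results.MP_c59389_nt.AllInvariantsAllHeights

open NumberField IsDedekindDomain

/-- the modular invariant `j(τ) = E₄(τ) ^ 3 / Δ(τ) = 1 / q + 744 + ⋯` -/
noncomputable def jInv (τ : UpperHalfPlane) : ℂ :=
  ModularForm.E₄ τ ^ 3 / ModularForm.discriminant τ

/-- the archimedean term `- log (|Δ(τ)| (Im τ) ^ 6)` of the Faltings height -/
noncomputable def arch (τ : UpperHalfPlane) : ℝ :=
  -Real.log (‖ModularForm.discriminant τ‖ * τ.im ^ 6)

/-- Silverman's formula for the stable Faltings height (up to an additive constant which depends on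
the normalisation of the metric only) of an elliptic curve with modular invariant `j ∈ K`, where
`τ w` is a point of the upper half plane with modular invariant `j` at the infinite place `w`:
`12 [K : ℚ] h_F = ∑_v log max(|j|_v, 1) + ∑_w [K_w : ℝ] arch (τ w)`. -/
noncomputable def faltings {K : Type} [Field K] [NumberField K] (j : K)
    (τ : InfinitePlace K → UpperHalfPlane) : ℝ :=
  (∑ᶠ v : HeightOneSpectrum (𝓞 K), Real.log (max (FinitePlace.mk v j) 1) +
    ∑ w : InfinitePlace K, (w.mult : ℝ) * arch (τ w)) / (12 * Module.finrank ℚ K)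

/-- the points `τ w` have modular invariant `j` -/
def IsPeriod {K : Type} [Field K] [NumberField K] (j : K)
    (τ : InfinitePlace K → UpperHalfPlane) : Prop := ∀ w, jInv (τ w) = w.embedding j

/-- good reduction at `v`: some Weierstrass equation over `K` of the curve is integral at `v` and
has a discriminant which is a unit at `v` -/
def GoodAt {K : Type} [Field K] [NumberField K] (v : HeightOneSpectrum (𝓞 K))
    (E : WeierstrassCurve K) : Prop :=
  ∃ C : WeierstrassCurve.VariableChange K,
    v.valuation K (C • E).a₁ ≤ 1 ∧ v.valuation K (C • E).a₂ ≤ 1 ∧ v.valuation K (C • E).a₃ ≤ 1 ∧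
    v.valuation K (C • E).a₄ ≤ 1 ∧ v.valuation K (C • E).a₆ ≤ 1 ∧ v.valuation K (C • E).Δ = 1

/-- semistable (good or multiplicative) reduction at `v`: some Weierstrass equation over `K` of the
curve is integral at `v` and its discriminant or its invariant `c₄` is a unit at `v` -/
def SemistableAt {K : Type} [Field K] [NumberField K] (v : HeightOneSpectrum (𝓞 K))
    (E : WeierstrassCurve K) : Prop :=
  ∃ C : WeierstrassCurve.VariableChange K,
    v.valuation K (C • E).a₁ ≤ 1 ∧ v.valuation K (C • E).a₂ ≤ 1 ∧ v.valuation K (C • E).a₃ ≤ 1 ∧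
    v.valuation K (C • E).a₄ ≤ 1 ∧ v.valuation K (C • E).a₆ ≤ 1 ∧
    (v.valuation K (C • E).Δ = 1 ∨ v.valuation K (C • E).c₄ = 1)

/-- the product of the norms of the primes of multiplicative reduction not dividing six -/
noncomputable def multNorm {K : Type} [Field K] [NumberField K] (E : WeierstrassCurve K) : ℝ :=
  ∏ᶠ v ∈ {v : HeightOneSpectrum (𝓞 K) |
    ¬ GoodAt v E ∧ SemistableAt v E ∧ v.valuation K 6 = 1}, (Ideal.absNorm v.asIdeal : ℝ)

/-- the product of the squares of the norms of the primes of additive reduction not dividing six -/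
noncomputable def addNorm {K : Type} [Field K] [NumberField K] (E : WeierstrassCurve K) : ℝ :=
  ∏ᶠ v ∈ {v : HeightOneSpectrum (𝓞 K) | ¬ SemistableAt v E ∧ v.valuation K 6 = 1},
    (Ideal.absNorm v.asIdeal : ℝ) ^ 2

/-- the part prime to six of the norm of the conductor -/
noncomputable def cond {K : Type} [Field K] [NumberField K] (E : WeierstrassCurve K) : ℝ :=
  multNorm E * addNorm E

/-- the product of the norms of the primes not dividing six at which `j` reduces to `0`, `1728` or
`∞` -/
noncomputable def radical {K : Type} [Field K] [NumberField K] (j : K) : ℝ :=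
  ∏ᶠ v ∈ {v : HeightOneSpectrum (𝓞 K) | v.valuation K 6 = 1 ∧
    (v.valuation K j ≠ 1 ∨ v.valuation K (j - 1728) ≠ 1)}, (Ideal.absNorm v.asIdeal : ℝ)

/-- the invariants `j ≠ 0, 1728`, of whatever height, with `radical j ≤ X` -/
def Invariants (L : Type) [Field L] [NumberField L] (X : ℝ) : Set L :=
  {j | j ≠ 0 ∧ j ≠ 1728 ∧ radical j ≤ X}

/-- those for which some elliptic curve `E` over `L` of invariant `j` satisfies
`κ log (cond E) + c ≤ n h_F(E) = h_F(A)`, `A = Res_{L/ℚ} E` -/
def Violators (L : Type) [Field L] [NumberField L] (κ c X : ℝ) : Set L :=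
  {j | j ∈ Invariants L X ∧ ∃ (E : WeierstrassCurve L) (τ : InfinitePlace L → UpperHalfPlane),
    E.Δ ≠ 0 ∧ E.c₄ ^ 3 / E.Δ = j ∧ IsPeriod j τ ∧
    κ * Real.log (cond E) + c ≤ Module.finrank ℚ L * faltings j τ}

theorem inv_eq (L : Type) [Field L] [NumberField L] (X : ℝ) :
    Invariants L X = Pool.Agent.Q19.JL.Iv L X := by
  ext j
  constructor
  · rintro ⟨h0, h1, h2⟩
    refine ⟨h0, h1, ?_⟩
    rw [← Pool.Agent.Q19.JL.rad_eq h0 h1]
    exact h2
  · rintro ⟨h0, h1, h2⟩
    refine ⟨h0, h1, ?_⟩
    rw [← Pool.Agent.Q19.JL.rad_eq h0 h1] at h2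
    exact h2

theorem log_cond {L : Type} [Field L] [NumberField L] (E : WeierstrassCurve L) (hE : E.Δ ≠ 0) :
    Real.log (cond E) = Pool.Agent.Q19.JL.lc E := by
  have h1 : 0 < multNorm E := Pool.Agent.Y733.FF.multN_pos E hE
  have h2 : 0 < addNorm E := Pool.Agent.Y733.FF.addN_pos E hE
  unfold cond
  rw [Real.log_mul h1.ne' h2.ne']
  rfl

/-- **Frey's inequality for almost all elliptic curves over a number field, all heights, all twists,
with the exact slope `1 / 60`.** -/
theorem result (L : Type) [Field L] [NumberField L] :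
    (∀ δ : ℝ, 0 < δ → ∃ X₀ : ℝ, ∀ X : ℝ, X₀ ≤ X → (Invariants L X).Finite ∧
      X ^ (2 / 3 - δ) ≤ ((Invariants L X).ncard : ℝ) ∧
      ((Invariants L X).ncard : ℝ) ≤ X ^ (2 / 3 + δ)) ∧
    (∀ κ c : ℝ, 1 / 60 < κ → ∃ ν X₀ : ℝ, 0 < ν ∧ ∀ X : ℝ, X₀ ≤ X →
      ((Violators L κ c X).ncard : ℝ) ≤ X ^ (-ν) * (Invariants L X).ncard) ∧
    (∀ κ c : ℝ, κ < 1 / 60 → ∃ F : Set L, F.Finite ∧ ∀ j : L, j ≠ 0 → j ≠ 1728 → j ∉ F →
      ∃ E : WeierstrassCurve L, E.Δ ≠ 0 ∧ E.c₄ ^ 3 / E.Δ = j ∧
        ∀ τ : InfinitePlace L → UpperHalfPlane, IsPeriod j τ →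
          κ * Real.log (cond E) + c < Module.finrank ℚ L * faltings j τ) := by
  refine ⟨fun δ hδ => ?_, fun κ c hκ => ?_, fun κ c hκ => ?_⟩
  · obtain ⟨X1, hX1, h1⟩ := Pool.Agent.Q19.JL.Iv_upper L δ hδ
    obtain ⟨X2, hX2, h2⟩ := Pool.Agent.Q19.JL.Iv_lower L δ hδ
    refine ⟨max X1 X2, fun X hX => ?_⟩
    rw [inv_eq]
    exact ⟨Pool.Agent.Q19.JL.Iv_fin L (hX1.trans ((le_max_left _ _).trans hX)),
      h2 X ((le_max_right _ _).trans hX), h1 X ((le_max_left _ _).trans hX)⟩
  · obtain ⟨ν, X₀, hν, -, h⟩ := Pool.Agent.Q19.JL.stable_up L κ c hκ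
    refine ⟨ν, X₀, hν, fun X hX => ?_⟩
    rw [inv_eq]
    refine h X hX _ (fun j hj => ?_) fun j hj => ?_
    · rw [← inv_eq]
      exact hj.1
    · obtain ⟨-, E, τ, hE, hjE, hτ, hv⟩ := hj
      refine ⟨E, τ, hE, hjE, hτ, ?_⟩
      rw [log_cond E hE] at hv
      exact hv
  · obtain ⟨F, hF, h⟩ := Pool.Agent.Q19.JL.stable_low L κ c hκ
    refine ⟨F, hF, fun j h0 h1 hj => ?_⟩
    obtain ⟨E, hE, hjE, h2⟩ := h j h0 h1 hj
    refine ⟨E, hE, hjE, fun τ hτ => ?_⟩
    rw [log_cond E hE]
    exact h2 τ hτ

end Pool.Agent.Results.MP_c59389_nt.AllInvariantsAllHeights
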