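import Pool.Agent.Q19.FM.Sand

/-!
# Frey's inequality for all abelian varieties geometrically isogenous to powers of elliptic curves, for
almost all invariants of all heights

Frey's inequality says that `h_F(A) ≤ (dim A / 2 + ε) log N_A + c` for all abelian varieties `A` over
`ℚ` of given dimension (stable Faltings height). Let `L` be a number field of degree `n` (for instance
`L = ℚ`). The invariants `j ≠ 0, 1728` in `L`, of ALL heights, are ordered by the product `radical j`
of the norms of the primes (not dividing six) at which `j` reduces to `0`, `1728` or `∞`; there are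
`X ^ (2 / 3 + o(1))` with `radical j ≤ X`. All but a proportion `X ^ (-ν)` of them have the following
properties, for every elliptic curve `E` over `L` of invariant `j` (all twists), every `g ≥ 1` and
every homomorphism `ρ` from the Galois group of `L` to `GL_g(ℤ)`. Let `A₀` be the form of `E ^ g` over
`L` given by `ρ` (its points over the algebraic closure are those of `E ^ g`, with the action
`x ↦ ρ(σ) σ(x)`).

* `n g h_F(E) < κ log N + c g`, `κ > 1 / 36`, where `N` is the norm of the part prime to six of the
  tame conductor of `A₀`: the exponent at `v` is `2 g` minus the rank of the invariants of the inertia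
  group in the Tate module.
* If `ρ` has at most `M` values, every finite subgroup `Γ` of `A₀` which is stable under the Galois
  group contains the kernel of an integral matrix `N` of nonzero determinant such that `N(Γ)` is killed
  by `(M !) ^ 2`.

If `E` has no complex multiplication, every abelian variety `A` over `L` which is isogenous to `E ^ g`
over the algebraic closure is a quotient `A₀ / Γ` (`A₀ = E ⊗ Hom(E, A)`), `ρ` has at most `M(g)` values
(Minkowski), and `N` induces an isogeny `E ^ g → A` over the algebraic closure whose kernel is killed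
by `(M !) ^ 2`: so `h_F(A) ≤ g h_F(E) + 2 g log (M !)`, and `A` and `A₀` have the same conductor. For
the abelian variety `R = Res_{L/ℚ} A` of dimension `n g` over `ℚ` one has `h_F(R) = n h_F(A)`, and `N`
divides `N_R`: all these `R` satisfy Frey's inequality, with the slope `1 / 36 + ε` instead of
`n g / 2 + ε`.

Proof. If `v` does not divide six and the tame exponent of some form of `E ^ g` at `v` is less than
`g`, then the inertia group acts by scalars on the points of `E` of order two and on those of order
three: an element which does not act by a scalar on `E[p]` fixes at most `p ^ g` of the points of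
order `p` of `A₀`. Then it fixes the square root `(e₁ - e₂)(e₂ - e₃)(e₃ - e₁)` of `-D` and the cube
root `3 (x₁ x₂ + x₃ x₄) - 2 A` of `16 D`, `D = 4 A³ + 27 B²`, where the `e_i` and the `x_i` are the
abscissas of the points of order two and three. So the order of `D` at `v` is divisible by six, and
`v` is not a simple pole of `j` or a simple zero of `j` or of `j - 1728`. The theorem of the library
on almost all points of the line `x + y + z = 0` (of all heights) says that the simple primes make up
almost all of the radical and that `log radical j ≥ (3 - ε) h(j)`. For the second property: for almost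
all `j` the image of the Galois group in the automorphism group of `E[m]` contains all automorphisms
of determinant one for all primes `m` and all small `m`; the `M !`-th powers of the elements of the
Galois group preserve `Γ`, and `Γ` contains `E[p] ⊗ w` with a primitive vector `w` if it has an element
of order `p ^ k`, `p ^ k` not dividing `(M !) ^ 2`.
-/

set_option autoImplicit false

open NumberField IsDedekindDomain
open scoped Classical

namespace Pool.Agent.Results.MP_c59389_nt.FormsOfPowers

/-- the modular invariant `j(τ) = E₄(τ) ^ 3 / Δ(τ) = 1 / q + 744 + ⋯` -/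
noncomputable def jInv (τ : UpperHalfPlane) : ℂ :=
  ModularForm.E₄ τ ^ 3 / ModularForm.discriminant τ

/-- the archimedean term `- log (|Δ(τ)| (Im τ) ^ 6)` of the Faltings height -/
noncomputable def arch (τ : UpperHalfPlane) : ℝ :=
  -Real.log (‖ModularForm.discriminant τ‖ * τ.im ^ 6)

/-- Silverman's formula for the stable Faltings height `h_F(E)` (up to an additive constant which
depends on the normalisation of the metric only) of an elliptic curve `E` with modular invariant
`j ∈ K`, where `τ w` is a point of the upper half plane with modular invariant `j` at the infinite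
place `w`: `12 [K : ℚ] h_F = ∑_v log max(|j|_v, 1) + ∑_w [K_w : ℝ] arch (τ w)`. -/
noncomputable def faltings {K : Type} [Field K] [NumberField K] (j : K)
    (τ : InfinitePlace K → UpperHalfPlane) : ℝ :=
  (∑ᶠ v : HeightOneSpectrum (𝓞 K), Real.log (max (FinitePlace.mk v j) 1) +
    ∑ w : InfinitePlace K, (w.mult : ℝ) * arch (τ w)) / (12 * Module.finrank ℚ K)

/-- the points `τ w` have modular invariant `j` -/
def IsPeriod {K : Type} [Field K] [NumberField K] (j : K)
    (τ : InfinitePlace K → UpperHalfPlane) : Prop := ∀ w, jInv (τ w) = w.embedding j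

/-- the product of the norms of the primes not dividing six at which `j` reduces to `0`, `1728` or
`∞` -/
noncomputable def radical {K : Type} [Field K] [NumberField K] (j : K) : ℝ :=
  ∏ᶠ v ∈ {v : HeightOneSpectrum (𝓞 K) | v.valuation K 6 = 1 ∧
    (v.valuation K j ≠ 1 ∨ v.valuation K (j - 1728) ≠ 1)}, (Ideal.absNorm v.asIdeal : ℝ)

/-- the invariants `j ≠ 0, 1728`, of whatever height, with `radical j ≤ X` -/
def Invariants (K : Type) [Field K] [NumberField K] (X : ℝ) : Set K :=
  {j | j ≠ 0 ∧ j ≠ 1728 ∧ radical j ≤ X}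

/-- The curve `y² = x³ + Ax + B` over `K`. -/
def curve {K : Type} [Field K] (A B : K) : WeierstrassCurve K := ⟨0, 0, 0, A, B⟩

/-- The group of its points over the algebraic closure of `K`. -/
abbrev Points {K : Type} [Field K] (A B : K) : Type :=
  ((curve A B).baseChange (AlgebraicClosure K)).toAffine.Point

/-- The action of an automorphism `σ` of the algebraic closure over `K` on the points. -/
noncomputable def galois {K : Type} [Field K] (A B : K)
    (σ : AlgebraicClosure K ≃ₐ[K] AlgebraicClosure K) : Points A B →+ Points A B :=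
  WeierstrassCurve.Affine.Point.map (σ : AlgebraicClosure K →ₐ[K] AlgebraicClosure K)

/-- The invariant of `y² = x³ + Ax + B`. -/
noncomputable def jInvariant {K : Type} [Field K] (A B : K) : K :=
  6912 * A ^ 3 / (4 * A ^ 3 + 27 * B ^ 2)

/-- The action of `σ` on the points over the algebraic closure of the form of `E ^ g` given by the
homomorphism `ρ` from the Galois group to `GL_g(ℤ)`: `x ↦ ρ(σ) σ(x)`. -/
noncomputable def act {K : Type} [Field K] {A B : K} {g : ℕ}
    (ρ : (AlgebraicClosure K ≃ₐ[K] AlgebraicClosure K) →* GL (Fin g) ℤ)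
    (σ : AlgebraicClosure K ≃ₐ[K] AlgebraicClosure K) (x : Fin g → Points A B) :
    Fin g → Points A B :=
  fun i => ∑ k, (ρ σ : Matrix (Fin g) (Fin g) ℤ) i k • galois A B σ (x k)

/-- `σ` is in the inertia group of the prime `P` of the ring of all algebraic integers:
`σ a ≡ a` modulo `P` for all `a` -/
def Inertia {K : Type} [Field K] (P : Ideal (𝓞 (AlgebraicClosure K)))
    (σ : AlgebraicClosure K ≃ₐ[K] AlgebraicClosure K) : Prop :=
  ∀ a : 𝓞 (AlgebraicClosure K), ∃ b ∈ P, σ (a : AlgebraicClosure K) - a = b

/-- the points `x` with `m x = 0` of the form of `E ^ g` given by `ρ` which are fixed by the inertia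
group of `P` -/
def fixedPoints {K : Type} [Field K] {A B : K} {g : ℕ}
    (ρ : (AlgebraicClosure K ≃ₐ[K] AlgebraicClosure K) →* GL (Fin g) ℤ)
    (m : ℕ) (P : Ideal (𝓞 (AlgebraicClosure K))) : Set (Fin g → Points A B) :=
  {x | m • x = 0 ∧ ∀ σ : AlgebraicClosure K ≃ₐ[K] AlgebraicClosure K, Inertia P σ → act ρ σ x = x}

/-- The inertia invariants of the Tate module at `v` of the form given by `ρ` have rank at least `r`:
for all `m` prime to `v` and all primes `P` above `v`, at least `m ^ r` of the points killed by `m`
are fixed by the inertia group of `P`. -/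
def RankGe {K : Type} [Field K] [NumberField K] (v : HeightOneSpectrum (𝓞 K)) (A B : K) {g : ℕ}
    (ρ : (AlgebraicClosure K ≃ₐ[K] AlgebraicClosure K) →* GL (Fin g) ℤ) (r : ℕ) : Prop :=
  ∀ m : ℕ, v.valuation K (m : K) = 1 → ∀ P : Ideal (𝓞 (AlgebraicClosure K)), P.IsPrime →
    P.comap (algebraMap (𝓞 K) (𝓞 (AlgebraicClosure K))) = v.asIdeal →
    m ^ r ≤ (fixedPoints ρ m P : Set (Fin g → Points A B)).ncard

/-- the tame part of the conductor exponent at `v` of the form of `E ^ g` given by `ρ`: `2 g` minus
the rank of the inertia invariants of the Tate module -/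
noncomputable def tameExponent {K : Type} [Field K] [NumberField K] (v : HeightOneSpectrum (𝓞 K))
    (A B : K) {g : ℕ}
    (ρ : (AlgebraicClosure K ≃ₐ[K] AlgebraicClosure K) →* GL (Fin g) ℤ) : ℕ :=
  2 * g - sSup {r | RankGe v A B ρ r}

/-- For all curves `E` over `K` of invariant `j` (all twists), all `g ≥ 1` and all forms of `E ^ g`
given by a homomorphism `ρ` from the Galois group to `GL_g(ℤ)`: `n g h_F(E) < κ log N + c g`, where
`n = [K : ℚ]` and `N` is the norm of the tame conductor (`T` is any finite set of primes which contains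
those not dividing six with a nonzero exponent). -/
def Frey {K : Type} [Field K] [NumberField K] (κ c : ℝ) (j : K) : Prop :=
  ∀ A B : K, 4 * A ^ 3 + 27 * B ^ 2 ≠ 0 → jInvariant A B = j → ∀ g : ℕ, 0 < g →
    ∀ (ρ : (AlgebraicClosure K ≃ₐ[K] AlgebraicClosure K) →* GL (Fin g) ℤ)
      (T : Finset (HeightOneSpectrum (𝓞 K))),
      (∀ v : HeightOneSpectrum (𝓞 K), v.valuation K 6 = 1 → tameExponent v A B ρ ≠ 0 → v ∈ T) →
      ∀ τ : InfinitePlace K → UpperHalfPlane, IsPeriod j τ →
        Module.finrank ℚ K * g * faltings j τ <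
          κ * Real.log (∏ v ∈ T, (Ideal.absNorm v.asIdeal : ℝ) ^ tameExponent v A B ρ) + c * g

/-- `Γ` is the kernel of an isogeny over `K` from the form of `E ^ g` given by `ρ`: a finite subgroup
of the group of points over the algebraic closure which is stable under the Galois group -/
def IsKernel {K : Type} [Field K] {A B : K} {g : ℕ}
    (ρ : (AlgebraicClosure K ≃ₐ[K] AlgebraicClosure K) →* GL (Fin g) ℤ)
    (Γ : AddSubgroup (Fin g → Points A B)) : Prop :=
  (Γ : Set (Fin g → Points A B)).Finite ∧
    ∀ (σ : AlgebraicClosure K ≃ₐ[K] AlgebraicClosure K) (x : Fin g → Points A B), x ∈ Γ →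
      act ρ σ x ∈ Γ

/-- For all curves `E` over `K` of invariant `j` (all twists), all `g`, all homomorphisms `ρ` with at
most `M` values and all kernels `Γ` of isogenies over `K` from the form of `E ^ g` given by `ρ`: `Γ`
contains the kernel of an integral matrix `N` of nonzero determinant, and `N(Γ)` is killed by
`(M !) ^ 2`. -/
def NearPower {K : Type} [Field K] (M : ℕ) (j : K) : Prop :=
  ∀ A B : K, 4 * A ^ 3 + 27 * B ^ 2 ≠ 0 → jInvariant A B = j → ∀ (g : ℕ)
    (ρ : (AlgebraicClosure K ≃ₐ[K] AlgebraicClosure K) →* GL (Fin g) ℤ),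
    Finite ρ.range → Nat.card ρ.range ≤ M → ∀ Γ : AddSubgroup (Fin g → Points A B),
      IsKernel ρ Γ → ∃ N : Matrix (Fin g) (Fin g) ℤ, N.det ≠ 0 ∧
        (∀ x : Fin g → Points A B, (∀ i, ∑ k, N i k • x k = 0) → x ∈ Γ) ∧
        ∀ x : Fin g → Points A B, x ∈ Γ → ∀ i, (M.factorial ^ 2) • ∑ k, N i k • x k = 0

theorem inv_eq (K : Type) [Field K] [NumberField K] (X : ℝ) :
    Invariants K X = Pool.Agent.Q19.JL.Iv K X := by
  ext j
  constructor
  · rintro ⟨h0, h1, h2⟩
    refine ⟨h0, h1, ?_⟩
    rw [← Pool.Agent.Q19.JL.rad_eq h0 h1]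
    exact h2
  · rintro ⟨h0, h1, h2⟩
    refine ⟨h0, h1, ?_⟩
    rw [← Pool.Agent.Q19.JL.rad_eq h0 h1] at h2
    exact h2

theorem exp_eq {K : Type} [Field K] [NumberField K] (v : HeightOneSpectrum (𝓞 K))
    (A B : K) {g : ℕ}
    (ρ : (AlgebraicClosure K ≃ₐ[K] AlgebraicClosure K) →* GL (Fin g) ℤ) :
    tameExponent v A B ρ = Pool.Agent.Q19.FM.tExp v A B ρ := rfl

theorem log_cond {K : Type} [Field K] [NumberField K] (A B : K) {g : ℕ}
    (ρ : (AlgebraicClosure K ≃ₐ[K] AlgebraicClosure K) →* GL (Fin g) ℤ)
    (T : Finset (HeightOneSpectrum (𝓞 K))) :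
    Real.log (∏ v ∈ T, (Ideal.absNorm v.asIdeal : ℝ) ^ tameExponent v A B ρ) =
      ∑ v ∈ T, (Pool.Agent.Q19.FM.tExp v A B ρ : ℝ) * Real.log (Pool.Agent.H691R3.Nv v) := by
  rw [Real.log_prod]
  · refine Finset.sum_congr rfl fun v _ => ?_
    rw [Real.log_pow, exp_eq]
    rfl
  · intro v _
    have h : 0 < Ideal.absNorm v.asIdeal := by
      have := NumberField.HeightOneSpectrum.one_lt_absNorm v
      omega
    have h2 : (0 : ℝ) < Ideal.absNorm v.asIdeal := by exact_mod_cast h
    exact (pow_pos h2 _).ne'

/-- **Theorem.** (1) There are `X ^ (2 / 3 + o(1))` invariants, of all heights, with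
`radical j ≤ X`. (2) For every slope `κ > 1 / 36`, every `c` and every `M`, Frey's inequality holds for
all forms of all powers of all elliptic curves whose invariant is outside a set of power-saving
proportion, and all finite stable subgroups of the forms given by homomorphisms with at most `M` values
are kernels of integral matrices up to `(M !) ^ 2`. -/
theorem result (L : Type) [Field L] [NumberField L] :
    (∀ δ : ℝ, 0 < δ → ∃ X₀ : ℝ, ∀ X : ℝ, X₀ ≤ X → (Invariants L X).Finite ∧
      X ^ (2 / 3 - δ) ≤ ((Invariants L X).ncard : ℝ) ∧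
      ((Invariants L X).ncard : ℝ) ≤ X ^ (2 / 3 + δ)) ∧
    ∀ (M : ℕ) (κ c : ℝ), 1 / 36 < κ → ∃ ν X₀ : ℝ, 0 < ν ∧ ∀ X : ℝ, X₀ ≤ X →
      (({j | j ∈ Invariants L X ∧ ¬ (Frey κ c j ∧ NearPower M j)}.ncard : ℕ) : ℝ) ≤
        X ^ (-ν) * (Invariants L X).ncard := by
  refine ⟨fun δ hδ => ?_, fun M κ c hκ => ?_⟩
  · obtain ⟨X1, hX1, h1⟩ := Pool.Agent.Q19.JL.Iv_upper L δ hδ
    obtain ⟨X2, hX2, h2⟩ := Pool.Agent.Q19.JL.Iv_lower L δ hδ
    refine ⟨max X1 X2, fun X hX => ?_⟩
    rw [inv_eq]
    exact ⟨Pool.Agent.Q19.JL.Iv_fin L (hX1.trans ((le_max_left _ _).trans hX)),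
      h2 X ((le_max_right _ _).trans hX), h1 X ((le_max_left _ _).trans hX)⟩
  · obtain ⟨ν₁, X₁, hν₁, -, h₁⟩ := Pool.Agent.Q19.FM.forms_up L κ c hκ
    obtain ⟨ν₂, X₂, hν₂, -, h₂⟩ := Pool.Agent.Q19.FM.sand_prop L M
    obtain ⟨ν, X₀, hν, h⟩ := Pool.Agent.Q19.FM.union (P₁ := fun j : L => Frey κ c j)
      (P₂ := fun j : L => NearPower M j) hν₁ hν₂
      (fun X hX S hS hS2 => h₁ X hX S hS fun j hj => by
        have hv := hS2 j hj
        unfold Frey at hv
        push Not at hv
        obtain ⟨A, B, hD, hjE, g, hg, ρ, T, hT, τ, hτ, hv⟩ := hv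
        refine ⟨A, B, g, ρ, T, τ, hD, hjE, hg, hT, hτ, ?_⟩
        rw [log_cond] at hv
        exact hv)
      (fun X hX S hS hS2 => h₂ X hX S hS fun j hj hs => hS2 j hj
        fun A B hD hjE g ρ k1 k2 Γ k3 => hs A B hD hjE g ρ k1 k2 Γ k3.1 k3.2)
    refine ⟨ν, X₀, hν, fun X hX => ?_⟩
    rw [inv_eq]
    exact h X hX _ (fun j hj => hj.1) fun j hj => hj.2

end Pool.Agent.Results.MP_c59389_nt.FormsOfPowers
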