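import Pool.Agent.Q229.RAF2
import Pool.Agent.Results.MP_c59389_nt.AllInvariantsAllHeights

/-!
# MP_c59389_nt: Frey's inequality for all elliptic curves whose invariant is a good approximation of almost every number, over all number fields

For an elliptic curve `E` over a number field `L` of degree `n` the Weil restriction `A = Res_{L/ℚ} E` has `h_F(A) = n h_F(E)`.
The starting file `AllInvariantsAllHeights` shows that Frey's inequality `h_F(A) < κ log N + c`, `κ > 1/60`, holds for all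
elliptic curves over `L` with a given invariant `j ∈ L` (all twists), for almost all `j` in the order by radicals.

Here: let `H(j)` be the multiplicative height relative to `L`. Almost every complex (real) number `z` has infinitely many
approximations `j` in a given number field `L ⊆ ℂ` (`L ⊆ ℝ`) with `|j - z| ≤ H(j)^(-τ)` for `τ < 1` (`τ < 2`), and only
finitely many for `τ > 1` (`τ > 2`). We show: for almost every complex number `z` (every real number), for EVERY number field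
`L ⊆ ℂ`, all `κ > 1/60` and all `c`, Frey's inequality holds for all elliptic curves over `L` of invariant `j`, for ALL but
finitely many of the `j ∈ L` with `|j - z| ≤ H(j)^(-1)` (`H(j)^(-2)`). For given `L`, `κ`, `c` there is `σ < 2` such that, for
every metric space `X` and every map `φ : L → X`, for instance the embedding in a completion of `L`, the set of the points `z`
with infinitely many exceptions with `dist(φ(j), z) ≤ H(j)^(-τ)` has Hausdorff dimension at most `σ / τ`.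

Proof: the exceptions are counted by height (the radical is `O(H(j) ^ 3)`), and a covering.
-/

set_option autoImplicit false

namespace Pool.Agent.Results.MP_c59389_nt.GoodApproximations

open NumberField IsDedekindDomain MeasureTheory
open Pool.Agent.Q19.JL (Iv RR zz RR_le ht_two)
open Pool.Agent.Results.MP_c59389_nt.AllInvariantsAllHeights (faltings IsPeriod cond Invariants Violators log_cond inv_eq)

/-- the `j` such that some elliptic curve `E` over `L` of invariant `j` satisfies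
`κ log (cond E) + c ≤ n h_F(E) = h_F(A)`, `A = Res_{L/ℚ} E` -/
def Fails (L : Type) [Field L] [NumberField L] (κ c : ℝ) : Set L :=
  {j | ∃ (E : WeierstrassCurve L) (τ : InfinitePlace L → UpperHalfPlane),
    E.Δ ≠ 0 ∧ E.c₄ ^ 3 / E.Δ = j ∧ IsPeriod j τ ∧
    κ * Real.log (cond E) + c ≤ Module.finrank ℚ L * faltings j τ}

theorem fails_mono {L : Type} [Field L] [NumberField L] {κ κ' c c' : ℝ} (hκ : κ' ≤ κ) (hc : c' ≤ c) :
    Fails L κ c ⊆ Fails L κ' c' := by
  rintro j ⟨E, τ, hE, hj, hτ, h⟩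
  refine ⟨E, τ, hE, hj, hτ, le_trans ?_ h⟩
  have h1 : 0 ≤ Real.log (cond E) := by
    rw [log_cond E hE]
    exact Pool.Agent.Q19.JL.lc_nonneg E hE
  have h2 := mul_le_mul_of_nonneg_right hκ h1
  linarith

/-- the radical is at most `C H ^ 3` -/
theorem inv_of (L : Type) [Field L] [NumberField L] : ∃ C : ℝ, 1 ≤ C ∧ ∀ T : ℝ, 1 ≤ T → ∀ j : L, j ≠ 0 → j ≠ 1728 →
    Height.mulHeight₁ j ≤ T → j ∈ Invariants L (C * T ^ (3 : ℝ)) := by
  obtain ⟨c0, hc0⟩ : ∃ c0 : ℝ, c0 = Height.logHeight₁ (1728 : L) + Module.finrank ℚ L * Real.log 2 := ⟨_, rfl⟩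
  have hc0' : 0 ≤ c0 := by
    rw [hc0]
    have h1 := Height.zero_le_logHeight₁ (1728 : L)
    have h2 : 0 ≤ Real.log 2 := Real.log_nonneg (by norm_num)
    positivity
  refine ⟨Real.exp (3 * c0), Real.one_le_exp (by positivity), fun T hT x h0 h1 hxT => ?_⟩
  have hT0 : 0 < T := by linarith
  have h8 : Height.logHeight₁ x ≤ Real.log T := by
    rw [Height.logHeight₁_eq_log_mulHeight₁]
    exact Real.log_le_log (lt_of_lt_of_le one_pos (Height.one_le_mulHeight₁ x)) hxT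
  rw [inv_eq]
  refine ⟨h0, h1, ?_⟩
  have h9 := RR_le h0 h1
  have h10 := ht_two x h0 h1
  rw [← hc0] at h10
  have h11 : RR (zz x) ≤ Real.log (T ^ (3 : ℝ)) + 3 * c0 := by
    rw [Real.log_rpow hT0]
    linarith
  calc Real.exp (RR (zz x)) ≤ Real.exp (Real.log (T ^ (3 : ℝ)) + 3 * c0) := Real.exp_le_exp.2 h11
    _ = Real.exp (3 * c0) * T ^ (3 : ℝ) := by
        rw [Real.exp_add, Real.exp_log (Real.rpow_pos_of_pos hT0 _), mul_comm]

theorem count (L : Type) [Field L] [NumberField L] (κ c : ℝ) (hκ : 1 / 60 < κ) :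
    ∃ s C T₀ : ℝ, s < 2 ∧ ∀ T : ℝ, T₀ ≤ T →
      {j | j ∈ Fails L κ c ∧ Height.mulHeight₁ j ≤ T}.Finite ∧
      ({j | j ∈ Fails L κ c ∧ Height.mulHeight₁ j ≤ T}.ncard : ℝ) ≤ C * T ^ s := by
  obtain ⟨h1, h2, -⟩ := AllInvariantsAllHeights.result L
  obtain ⟨ν, X₁, hν, h3⟩ := h2 κ c hκ
  obtain ⟨X₂, h4⟩ := h1 (ν / 2) (by positivity)
  obtain ⟨A, hA1, hA⟩ := inv_of L
  set s : ℝ := max (3 * (2 / 3 - ν / 2)) 0 with hs
  refine ⟨s, A ^ (2 / 3 - ν / 2 : ℝ) + 2, max 1 (max X₁ X₂), ?_, fun T hT => ?_⟩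
  · rw [hs]
    refine max_lt ?_ two_pos
    linarith
  have hT1 : 1 ≤ T := (le_max_left _ _).trans hT
  have hT2 : max X₁ X₂ ≤ T := (le_max_right _ _).trans hT
  have hT0 : 0 < T := by linarith
  have hX : T ≤ A * T ^ (3 : ℝ) := by
    have h5 : T ≤ T ^ (3 : ℝ) := by
      calc T = T ^ (1 : ℝ) := (Real.rpow_one T).symm
        _ ≤ T ^ (3 : ℝ) := Real.rpow_le_rpow_of_exponent_le hT1 (by norm_num)
    have h6 : 0 < T ^ (3 : ℝ) := Real.rpow_pos_of_pos hT0 _
    nlinarith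
  have hX0 : 0 < A * T ^ (3 : ℝ) := lt_of_lt_of_le hT0 hX
  obtain ⟨hfin, -, h6⟩ := h4 (A * T ^ (3 : ℝ)) (((le_max_right _ _).trans hT2).trans hX)
  have h7 := h3 (A * T ^ (3 : ℝ)) (((le_max_left _ _).trans hT2).trans hX)
  have hVfin : (Violators L κ c (A * T ^ (3 : ℝ))).Finite := hfin.subset fun x hx => hx.1
  have hsub : {j | j ∈ Fails L κ c ∧ Height.mulHeight₁ j ≤ T} ⊆ Violators L κ c (A * T ^ (3 : ℝ)) ∪ {0, 1728} := by
    rintro x ⟨h8, h9⟩
    by_cases h10 : x = 0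
    · exact Or.inr (Or.inl h10)
    by_cases h11 : x = 1728
    · exact Or.inr (Or.inr h11)
    exact Or.inl ⟨hA T hT1 x h10 h11 h9, h8⟩
  have hfin2 := hVfin.union ((Set.finite_singleton (1728 : L)).insert 0)
  refine ⟨hfin2.subset hsub, ?_⟩
  have h8 : (({j | j ∈ Fails L κ c ∧ Height.mulHeight₁ j ≤ T}.ncard : ℕ) : ℝ) ≤
      ((Violators L κ c (A * T ^ (3 : ℝ))).ncard : ℝ) + 2 := by
    have h9 : {j | j ∈ Fails L κ c ∧ Height.mulHeight₁ j ≤ T}.ncard ≤ (Violators L κ c (A * T ^ (3 : ℝ))).ncard + 2 := by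
      refine (Set.ncard_le_ncard hsub hfin2).trans ((Set.ncard_union_le _ _).trans ?_)
      have : ({0, 1728} : Set L).ncard ≤ 2 := by
        refine (Set.ncard_insert_le _ _).trans ?_
        rw [Set.ncard_singleton]
      omega
    exact_mod_cast h9
  have h9 : ((Violators L κ c (A * T ^ (3 : ℝ))).ncard : ℝ) ≤ A ^ (2 / 3 - ν / 2 : ℝ) * T ^ s := by
    calc ((Violators L κ c (A * T ^ (3 : ℝ))).ncard : ℝ)
        ≤ (A * T ^ (3 : ℝ)) ^ (-ν) * (Invariants L (A * T ^ (3 : ℝ))).ncard := h7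
      _ ≤ (A * T ^ (3 : ℝ)) ^ (-ν) * (A * T ^ (3 : ℝ)) ^ (2 / 3 + ν / 2) :=
          mul_le_mul_of_nonneg_left h6 (Real.rpow_nonneg hX0.le _)
      _ = (A * T ^ (3 : ℝ)) ^ (2 / 3 - ν / 2) := by
          rw [← Real.rpow_add hX0]
          congr 1
          ring
      _ = A ^ (2 / 3 - ν / 2 : ℝ) * T ^ (3 * (2 / 3 - ν / 2)) := by
          rw [Real.mul_rpow (by linarith) (Real.rpow_nonneg hT0.le _), ← Real.rpow_mul hT0.le]
      _ ≤ A ^ (2 / 3 - ν / 2 : ℝ) * T ^ s := by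
          refine mul_le_mul_of_nonneg_left ?_ (Real.rpow_nonneg (by linarith) _)
          exact Real.rpow_le_rpow_of_exponent_le hT1 (le_max_left _ _)
  have h10 : (1 : ℝ) ≤ T ^ s := Real.one_le_rpow hT1 (le_max_right _ _)
  nlinarith

/-- (1) For every number field `L`, `κ > 1/60` and `c` there is `σ < 2` such that for every metric space `X`, every map
`φ : L → X` and every `τ > 0` the points `z` of `X` with infinitely many `j ∈ L` for which Frey's inequality fails and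
`dist(φ(j), z) ≤ H(j)^(-τ)` form a set of Hausdorff dimension at most `σ / τ`.
(2) For almost every complex number `z`, for every number field `L ⊆ ℂ`, all `κ > 1/60` and `c`, Frey's inequality holds for
all but finitely many of the `j ∈ L` with `|j - z| ≤ H(j)^(-1)`.
(3) For almost every real number `t`, for every number field `L ⊆ ℂ`, all `κ > 1/60` and `c`, Frey's inequality holds for
all but finitely many of the `j ∈ L` with `|j - t| ≤ H(j)^(-2)`. -/
theorem result :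
    (∀ (L : Type) [Field L] [NumberField L] (κ c : ℝ), 1 / 60 < κ → ∃ σ : ℝ, σ < 2 ∧
      ∀ (X : Type) [MetricSpace X] (φ : L → X) (τ : ℝ), 0 < τ →
        dimH {z : X | {j : L | j ∈ Fails L κ c ∧ dist (φ j) z ≤ Height.mulHeight₁ j ^ (-τ)}.Infinite} ≤
          ENNReal.ofReal (σ / τ)) ∧
    (∀ᵐ z : ℂ, ∀ (L : IntermediateField ℚ ℂ) [NumberField L] (κ c : ℝ), 1 / 60 < κ →
      {j : L | j ∈ Fails L κ c ∧ ‖(j : ℂ) - z‖ ≤ Height.mulHeight₁ j ^ (-(1 : ℝ))}.Finite) ∧
    (∀ᵐ t : ℝ, ∀ (L : IntermediateField ℚ ℂ) [NumberField L] (κ c : ℝ), 1 / 60 < κ →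
      {j : L | j ∈ Fails L κ c ∧ ‖(j : ℂ) - t‖ ≤ Height.mulHeight₁ j ^ (-(2 : ℝ))}.Finite) := by
  have hex : ∀ κ c : ℝ, 1 / 60 < κ → ∃ k : ℕ, 1 / 60 + 1 / ((k : ℝ) + 1) ≤ κ ∧ -(k : ℝ) ≤ c := by
    intro κ c hκ
    obtain ⟨n1, hn1⟩ := exists_nat_one_div_lt (show (0 : ℝ) < κ - 1 / 60 by linarith)
    obtain ⟨n2, hn2⟩ := exists_nat_ge (-c)
    refine ⟨max n1 n2, ?_, ?_⟩
    · have h1 : 1 / (((max n1 n2 : ℕ) : ℝ) + 1) ≤ 1 / ((n1 : ℝ) + 1) := by
        refine one_div_le_one_div_of_le (by positivity) ?_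
        have : (n1 : ℝ) ≤ ((max n1 n2 : ℕ) : ℝ) := by exact_mod_cast le_max_left _ _
        linarith
      linarith
    · have : (n2 : ℝ) ≤ ((max n1 n2 : ℕ) : ℝ) := by exact_mod_cast le_max_right _ _
      linarith
  have hcnt : ∀ (K : Type) [Field K] [NumberField K] (k : ℕ), ∃ s C T₀ : ℝ, s < 2 * (1 : ℝ) ∧ ∀ T : ℝ, T₀ ≤ T →
      {x | x ∈ Fails K (1 / 60 + 1 / ((k : ℝ) + 1)) (-(k : ℝ)) ∧ Height.mulHeight₁ x ≤ T}.Finite ∧
      ({x | x ∈ Fails K (1 / 60 + 1 / ((k : ℝ) + 1)) (-(k : ℝ)) ∧ Height.mulHeight₁ x ≤ T}.ncard : ℝ) ≤ C * T ^ s := by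
    intro K _ _ k
    obtain ⟨s, C, T₀, h1, h2⟩ := count K (1 / 60 + 1 / ((k : ℝ) + 1)) (-(k : ℝ)) (by
      have : (0 : ℝ) < 1 / ((k : ℝ) + 1) := by positivity
      linarith)
    exact ⟨s, C, T₀, by linarith, h2⟩
  refine ⟨?_, ?_, ?_⟩
  · intro L _ _ κ c hκ
    obtain ⟨s, C, T₀, h1, h2⟩ := count L κ c hκ
    exact ⟨s, h1, fun X _ φ τ hτ => Pool.Agent.Q229.RAH.dim φ (Fails L κ c) Height.mulHeight₁
      (Pool.Agent.Q229.RAF2.up h2) τ hτ⟩
  · have h1 := Pool.Agent.Q229.RAF2.complex (fun K _ _ k => Fails K (1 / 60 + 1 / ((k : ℝ) + 1)) (-(k : ℝ)))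
      (fun K _ _ x => Height.mulHeight₁ x) (fun K _ _ => 1) hcnt (fun K _ _ => one_pos)
    filter_upwards [h1] with z hz K hK κ c hκ
    obtain ⟨k, hk1, hk2⟩ := hex κ c hκ
    exact (hz K k).subset fun j hj => ⟨fails_mono hk1 hk2 hj.1, hj.2⟩
  · have h1 := Pool.Agent.Q229.RAF2.real (fun K _ _ k => Fails K (1 / 60 + 1 / ((k : ℝ) + 1)) (-(k : ℝ)))
      (fun K _ _ x => Height.mulHeight₁ x) (fun K _ _ => 1) hcnt (fun K _ _ => one_pos)
    filter_upwards [h1] with z hz K hK κ c hκ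
    obtain ⟨k, hk1, hk2⟩ := hex κ c hκ
    refine (hz K k).subset fun j hj => ⟨fails_mono hk1 hk2 hj.1, ?_⟩
    have h2 := hj.2
    rwa [mul_one]

end Pool.Agent.Results.MP_c59389_nt.GoodApproximations
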