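import Pool.Agent.Results.MP_c59389_nt.AllInvariantsAllHeights
import Pool.Agent.Q229.RAV

/-!
# Frey's inequality for ALL elliptic curves over `ℚ` with invariants near almost every real number

`Frey κ c j` says: ALL elliptic curves `E` over `ℚ` of invariant `j` (all twists) satisfy `h_F(E) < κ log (cond E) + c`, where
`h_F` is the stable Faltings height and `cond E` the part prime to six of the conductor, see the starting tree's file
`AllInvariantsAllHeights`. (Frey's inequality for elliptic curves is the case `κ = 1 / 2 + ε`.) That file shows, with the exact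
slope `1 / 60`, that for `κ > 1 / 60` this holds for all invariants outside a set which is thin in the order by radicals.

Here we show that there is no exception near almost every real number: for almost every real number `t`, all `κ > 1 / 60` and all
`c` there is `τ < 2` such that `Frey κ c j` holds for ALL but finitely many of the rational numbers `j` with
`|t - j| ≤ den(j) ^ (-τ)`, in particular for all but finitely many of the convergents of `t`.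
-/

set_option autoImplicit false

namespace Pool.Agent.Results.MP_c59389_nt.RationalsNearRealInvariants

open NumberField MeasureTheory Filter
open Pool.Agent.Results.MP_c59389_nt.AllInvariantsAllHeights (cond faltings IsPeriod Violators Invariants inv_eq)

/-- all elliptic curves over `ℚ` of invariant `j` satisfy `h_F(E) < κ log (cond E) + c` -/
def Frey (κ c : ℝ) (j : ℚ) : Prop :=
  ∀ (E : WeierstrassCurve ℚ) (τ : InfinitePlace ℚ → UpperHalfPlane), E.Δ ≠ 0 → E.c₄ ^ 3 / E.Δ = j →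
    IsPeriod j τ → faltings j τ < κ * Real.log (cond E) + c

theorem pts {κ : ℝ} (hκ : 1 / 60 < κ) (c : ℝ) :
    ∃ σ : ℝ, 0 ≤ σ ∧ σ < 2 ∧ ∀ M : ℕ, ∃ C : ℝ, ∀ T : ℝ, 1 ≤ T →
      (Pool.Agent.Q229.RAQ.Pts {j : ℚ | j ≠ 0 ∧ j ≠ 1728 ∧ ¬ Frey κ c j} M T).Finite ∧
      ((Pool.Agent.Q229.RAQ.Pts {j : ℚ | j ≠ 0 ∧ j ≠ 1728 ∧ ¬ Frey κ c j} M T).ncard : ℝ) ≤ C * T ^ σ := by
  refine Pool.Agent.Q229.RAV.pts_iv _ ?_
  obtain ⟨-, h, -⟩ := Pool.Agent.Results.MP_c59389_nt.AllInvariantsAllHeights.result ℚ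
  obtain ⟨ν, X₀, hν, h⟩ := h κ c hκ
  refine ⟨ν, max X₀ 1, hν, fun X hX => ?_⟩
  have h1 := h X ((le_max_left _ _).trans hX)
  have hX1 : 1 ≤ X := (le_max_right _ _).trans hX
  have e : {j : ℚ | j ≠ 0 ∧ j ≠ 1728 ∧ ¬ Frey κ c j} ∩ Pool.Agent.Q19.JL.Iv ℚ X ⊆ Violators ℚ κ c X := by
    rintro j ⟨⟨-, -, h2⟩, h3⟩
    rw [← inv_eq] at h3
    refine ⟨h3, ?_⟩
    unfold Frey at h2
    push Not at h2
    obtain ⟨E, τ, k1, k2, k3, k4⟩ := h2
    refine ⟨E, τ, k1, k2, k3, ?_⟩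
    rw [Module.finrank_self, Nat.cast_one, one_mul]
    exact k4
  have hfin : (Violators ℚ κ c X).Finite := by
    refine (Pool.Agent.Q19.JL.Iv_fin ℚ hX1).subset fun j hj => ?_
    rw [← inv_eq]
    exact hj.1
  rw [inv_eq] at h1
  exact le_trans (by exact_mod_cast Set.ncard_le_ncard e hfin) h1

theorem near {κ : ℝ} (hκ : 1 / 60 < κ) (c : ℝ) : ∃ σ : ℝ, 0 ≤ σ ∧ σ < 2 ∧ ∀ τ : ℝ, 0 < τ →
    ∃ Z : Set ℝ, dimH Z ≤ ENNReal.ofReal (σ / τ) ∧ (σ < τ → volume Z = 0) ∧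
      ∀ t : ℝ, t ∉ Z → ∀ᶠ T : ℝ in atTop, ∀ j : ℚ, (j.den : ℝ) ≤ T → |t - j| ≤ T ^ (-τ) → Frey κ c j := by
  obtain ⟨σ, h0, h2, h⟩ := pts hκ c
  have h' : ∀ M : ℕ, ∃ C : ℝ, ∀ T : ℝ, 1 ≤ T →
      (Pool.Agent.Q229.RAQ.Pts {j : ℚ | ¬ Frey κ c j} M T).Finite ∧
      ((Pool.Agent.Q229.RAQ.Pts {j : ℚ | ¬ Frey κ c j} M T).ncard : ℝ) ≤ C * T ^ σ := by
    intro M
    obtain ⟨C, hC⟩ := h M
    refine ⟨C + 2, fun T hT => ?_⟩
    obtain ⟨k1, k2⟩ := hC T hT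
    have hsub : Pool.Agent.Q229.RAQ.Pts {j : ℚ | ¬ Frey κ c j} M T ⊆
        Pool.Agent.Q229.RAQ.Pts {j : ℚ | j ≠ 0 ∧ j ≠ 1728 ∧ ¬ Frey κ c j} M T ∪ {0, 1728} := by
      rintro x ⟨hx, hx2⟩
      by_cases hx3 : x ∈ ({0, 1728} : Set ℚ)
      · exact Or.inr hx3
      · exact Or.inl ⟨⟨fun h => hx3 (Or.inl h), fun h => hx3 (Or.inr h), hx⟩, hx2⟩
    have hfin2 : ({0, 1728} : Set ℚ).Finite := (Set.finite_singleton _).insert _
    refine ⟨(k1.union hfin2).subset hsub, ?_⟩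
    have h5 := (Set.ncard_le_ncard hsub (k1.union hfin2)).trans (Set.ncard_union_le _ _)
    have h6 : ({0, 1728} : Set ℚ).ncard = 2 := Set.ncard_pair (by norm_num)
    rw [h6] at h5
    have h7 : ((Pool.Agent.Q229.RAQ.Pts {j : ℚ | ¬ Frey κ c j} M T).ncard : ℝ) ≤
        (Pool.Agent.Q229.RAQ.Pts {j : ℚ | j ≠ 0 ∧ j ≠ 1728 ∧ ¬ Frey κ c j} M T).ncard + 2 := by exact_mod_cast h5
    have h8 : 1 ≤ T ^ σ := Real.one_le_rpow hT h0
    nlinarith
  refine ⟨σ, h0, h2, fun τ hτ => ?_⟩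
  obtain ⟨Z, k1, k2, k3⟩ := Pool.Agent.Q229.RAQ.near1 {j : ℚ | ¬ Frey κ c j} h0 h' τ hτ
  refine ⟨Z, k1, k2, fun t ht => ?_⟩
  filter_upwards [(k3 t ht).2] with T hT x hx hxt
  exact not_not.1 (hT x hx hxt)

theorem log_cond_nonneg (E : WeierstrassCurve ℚ) (hE : E.Δ ≠ 0) : 0 ≤ Real.log (cond E) := by
  rw [Pool.Agent.Results.MP_c59389_nt.AllInvariantsAllHeights.log_cond E hE]
  exact Pool.Agent.Q19.JL.lc_nonneg E hE

/-- **Frey's inequality, with every slope `κ > 1 / 60`, for all elliptic curves over `ℚ` with invariants near almost every real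
number.** (1) For all `κ > 1 / 60` and `c` there is `σ < 2` such that for every `τ > 0` there is a set `Z` of real numbers of
Hausdorff dimension at most `σ / τ`, of measure zero if `σ < τ`, such that for all `t ∉ Z` and all large `T`, ALL elliptic curves
`E` over `ℚ` whose invariant `j` has denominator at most `T` and satisfies `|t - j| ≤ T ^ (-τ)` satisfy
`h_F(E) < κ log (cond E) + c`. (2) For almost every real `t`, all `κ > 1 / 60` and `c` there is `τ < 2` such that this holds for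
all elliptic curves whose invariant is one of the rational numbers `j` with `|t - j| ≤ den(j) ^ (-τ)`, with finitely many
exceptions `j`. -/
theorem result :
    (∀ κ c : ℝ, 1 / 60 < κ → ∃ σ : ℝ, 0 ≤ σ ∧ σ < 2 ∧ ∀ τ : ℝ, 0 < τ →
      ∃ Z : Set ℝ, dimH Z ≤ ENNReal.ofReal (σ / τ) ∧ (σ < τ → volume Z = 0) ∧
        ∀ t : ℝ, t ∉ Z → ∀ᶠ T : ℝ in atTop, ∀ j : ℚ, (j.den : ℝ) ≤ T → |t - j| ≤ T ^ (-τ) → Frey κ c j) ∧
    ∀ᵐ t : ℝ, ∀ κ c : ℝ, 1 / 60 < κ → ∃ τ : ℝ, τ < 2 ∧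
      {j : ℚ | |t - j| ≤ (j.den : ℝ) ^ (-τ) ∧ ¬ Frey κ c j}.Finite := by
  refine ⟨fun κ c hκ => near hκ c, ?_⟩
  have hkey : ∀ m n : ℕ, ∀ᵐ t : ℝ, ∃ τ : ℝ, τ < 2 ∧
      {j : ℚ | |t - j| ≤ (j.den : ℝ) ^ (-τ) ∧ ¬ Frey (1 / 60 + 1 / ((m : ℝ) + 1)) (-n) j}.Finite := by
    intro m n
    have hm : (0 : ℝ) < 1 / ((m : ℝ) + 1) := by positivity
    obtain ⟨σ, h0, h2, h⟩ := near (κ := 1 / 60 + 1 / ((m : ℝ) + 1)) (by linarith) (-n)
    have hτ0 : 0 < (σ + 2) / 2 := by linarith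
    obtain ⟨Z, -, k2, k3⟩ := h ((σ + 2) / 2) hτ0
    filter_upwards [compl_mem_ae_iff.2 (k2 (by linarith))] with t ht
    refine ⟨(σ + 2) / 2, by linarith, ?_⟩
    have h4 : ∀ᶠ T : ℝ in atTop, ∀ x : ℚ, (x.den : ℝ) ≤ T → |t - x| ≤ T ^ (-((σ + 2) / 2)) →
        x ∉ {j : ℚ | ¬ Frey (1 / 60 + 1 / ((m : ℝ) + 1)) (-n) j} := by
      filter_upwards [k3 t ht] with T hT x hx hxt hcon
      exact hcon (hT x hx hxt)
    refine (Pool.Agent.Q229.RAQ.finite_den hτ0 h4).subset ?_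
    rintro x ⟨hx1, hx2⟩
    exact ⟨hx2, hx1⟩
  have hall : ∀ᵐ t : ℝ, ∀ m n : ℕ, ∃ τ : ℝ, τ < 2 ∧
      {j : ℚ | |t - j| ≤ (j.den : ℝ) ^ (-τ) ∧ ¬ Frey (1 / 60 + 1 / ((m : ℝ) + 1)) (-n) j}.Finite := by
    rw [ae_all_iff]
    intro m
    rw [ae_all_iff]
    exact hkey m
  filter_upwards [hall] with t ht κ c hκ
  obtain ⟨m, hm⟩ := exists_nat_one_div_lt (sub_pos.2 hκ)
  obtain ⟨n, hn⟩ := exists_nat_ge (-c)
  obtain ⟨τ, hτ, h⟩ := ht m n
  refine ⟨τ, hτ, h.subset ?_⟩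
  rintro x ⟨h1, h2⟩
  refine ⟨h1, fun h3 => h2 ?_⟩
  intro E τ' hE hj hp
  have h4 := h3 E τ' hE hj hp
  have h5 := mul_le_mul_of_nonneg_right (show 1 / 60 + 1 / ((m : ℝ) + 1) ≤ κ by linarith) (log_cond_nonneg E hE)
  linarith

end Pool.Agent.Results.MP_c59389_nt.RationalsNearRealInvariants
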